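import Pool.Agent.helper23.F2.Spec

set_option autoImplicit false

open scoped BigOperators

namespace Pool.Agent.F2

open Pool.Agent.helper23.TH

theorem MT1_ip {V : Type} [Fintype V] (M N : Matrix V V ℝ) : ip M N = Matrix.trace (M.transpose * N) := by
  unfold ip
  rw [Matrix.trace, Finset.sum_comm]
  rfl

theorem MT1 : MT1_stmt := by
  classical
  intro V _ A P hA hP i j k l
  have hpow : ∀ n : ℕ, (A ^ n).transpose = A ^ n := by
    intro n
    rw [Matrix.transpose_pow, hA]
  rw [MT1_ip, Matrix.transpose_mul, Matrix.transpose_mul, hpow, hpow, hP]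
  have e : A ^ j * (P * A ^ i) * (A ^ k * P * A ^ l) = A ^ j * (P * A ^ (i + k) * P * A ^ l) := by
    rw [pow_add]
    simp only [Matrix.mul_assoc]
  rw [e, Matrix.trace_mul_comm, Matrix.mul_assoc, ← pow_add, add_comm l j]

end Pool.Agent.F2
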